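import Pool.Agent.Helper2.PN.Dims
import Pool.Agent.Helper14.PW.MainE

/-!
Polarised rational Hodge structures with only scalar endomorphisms: almost all dimensions (MP_b8862a_ag).
-/

set_option linter.unusedSectionVars false

open Matrix Module GH

namespace MH

variable {n : Type} [Fintype n] [DecidableEq n] {w : ℤ} {Q : Matrix n n ℚ} {S : Finset ℤ} {P : ℤ → Matrix n n ℂ}

/-- The `ℓ`-adic data: `Γ` consists of similitudes of `Q` (isometries in weight zero), and has a Hodge-Tate decomposition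
with the Hodge numbers of `V`. -/
structure IsGalQ (w : ℤ) (Q : Matrix n n ℚ) (P : ℤ → Matrix n n ℂ) (Γ : Subgroup (GL n ℂ)) : Prop where
  sim : ∀ g ∈ Γ, ∃ z : ℂ, (w = 0 → z = 1) ∧ (g : Matrix n n ℂ)ᵀ * toC Q * (g : Matrix n n ℂ) = z ^ 2 • toC Q
  ht : ∃ (S' : Finset ℤ) (R : ℤ → Matrix n n ℂ), IsHTw w Q S' Γ R ∧ ∀ p, (R p).rank = (P p).rank

namespace RK

variable (H : IsHW w Q S P)
    (hEnd : ∀ A : Matrix n n ℚ, (∀ p, toC A * P p = P p * toC A) → ∃ c : ℚ, A = c • (1 : Matrix n n ℚ))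

include hEnd in
theorem blk1 (hn : 0 < Fintype.card n) : IsBlk P (1 : Matrix n n ℂ) where
  mem := EC_one
  idem := one_mul 1
  ne := by
    have : Nonempty n := Fintype.card_pos_iff.1 hn
    exact one_ne_zero
  min := fun x hx => by
    obtain ⟨c, hc⟩ := EC_scalar98 hEnd hx
    exact ⟨c, by rw [one_mul, mul_one, hc]⟩

include H hEnd in
theorem selfDual (hn : 0 < Fintype.card n) : SelfDual Q P := by
  have : Nonempty n := Fintype.card_pos_iff.1 hn
  intro f hf
  obtain rfl := blk_one14 hEnd hf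
  refine ⟨1, EC_one, fun h0 => ?_⟩
  rw [Matrix.transpose_one, Matrix.one_mul, Matrix.mul_one, Matrix.mul_one] at h0
  have h1 := H.detQ
  rw [h0] at h1
  exact h1 Matrix.det_zero

include H in
theorem indec_prime (hp : (Fintype.card n).Prime) : NI.Indec w (fun p => (P p).rank) := by
  intro a f g _ _ hv
  have hS : ∀ p, p ∉ S → (P p).rank = 0 := fun p h => by rw [H.supp p h, Matrix.rank_zero]
  have hs : ∑ p ∈ S, (P p).rank = Fintype.card n := by
    have h1 : ((∑ p ∈ S, (P p).rank : ℕ) : ℂ) = (Fintype.card n : ℂ) := by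
      rw [Nat.cast_sum, ← Matrix.trace_one, ← H.sum, Matrix.trace_sum]
      refine Finset.sum_congr rfl fun p _ => ?_
      rw [trace_eq_rank (by rw [H.mul, if_pos rfl])]
    exact_mod_cast h1
  have h3 := sum_conv2 hv hS
  rw [hs] at h3
  rcases (Nat.dvd_prime hp).1 (Dvd.intro _ h3.symm) with h4 | h4
  · exact Or.inl (card_of_sum_one2 h4)
  · right
    refine card_of_sum_one2 ?_
    rw [h4] at h3
    exact Nat.eq_of_mul_eq_mul_left hp.pos (by omega)

include H hEnd in
/-- **The conclusions.** -/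
theorem main (hn : Fintype.card n ∉ ExSelf) (hI : NI.Indec w (fun p => (P p).rank))
    (hA : ¬ Arith (Fintype.card n) (fun p => (P p).rank)) :
    (∀ g : GL n ℂ, g ∈ MT S P ↔ ∃ z : ℂ, (w = 0 → z = 1) ∧
      (g : Matrix n n ℂ)ᵀ * toC Q * (g : Matrix n n ℂ) = z ^ 2 • toC Q ∧ (g : Matrix n n ℂ).det = z ^ Fintype.card n) ∧
    ∀ (ℓ : ℕ) [Fact ℓ.Prime] (ι : ℚ_[ℓ] →+* ℂ) (Γ : Subgroup (GL n ℚ_[ℓ])),
      IsGalQ w Q P (Γ.map (Matrix.GeneralLinearGroup.map ι)) →
      (∃ D : Subgroup (GL n ℚ), IsMon Q S P D ∧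
        D.map (Matrix.GeneralLinearGroup.map (algebraMap ℚ ℚ_[ℓ])) ≤ Γ) ∨
      ((∀ d : ℕ, (∀ p, d ∣ (P p).rank) → d = 1) ∧ SemiS Γ ∧
        ∀ t, IsTateTensor (Γ.map (Matrix.GeneralLinearGroup.map ι)) 1 1 t → MTfix S P 1 1 t) →
      ∀ (a b : ℕ) (t : (Fin a ⊕ Fin b → n) → ℂ),
        IsTateTensor (Γ.map (Matrix.GeneralLinearGroup.map ι)) a b t ↔ MTfix S P a b t := by
  have h9 : 9 ≤ Fintype.card n := by
    by_contra h3
    exact hn (exP_self.small _ (by omega))
  have hpos : 0 < Fintype.card n := by omega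
  have hne : Nonempty n := Fintype.card_pos_iff.1 hpos
  have hSD := selfDual H hEnd hpos
  have e1 : ∀ σ : ℂ ≃+* ℂ, (1 : Matrix n n ℂ).map σ = 1 := fun σ => Matrix.map_one _ (map_zero _) (map_one _)
  have hty : ∀ f, IsBlk P f → 2 ≤ f.rank → TyBN Q S P f := by
    intro f hf hf2
    obtain rfl := blk_one14 hEnd hf
    refine H.tyBN_p1 exP_self hEnd hf hf2 (σ := RingEquiv.refl ℂ) ?_ ?_ ?_
    · rw [Matrix.rank_one]
      exact hn
    · simp only [e1, one_mul]
      exact hI
    · rw [Matrix.rank_one]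
      simp only [e1, one_mul]
      exact hA
  refine ⟨fun g => (H.MT_iff_self14 hty hSD g).trans ⟨?_, ?_⟩, fun ℓ _ ι Γ G hAB => (pp_main ι H hSD hty).2 Γ ?_ ?_⟩
  · rintro ⟨-, z, h1, h2, h3⟩
    refine ⟨z, h1, h2, ?_⟩
    have h4 := h3 1 (blk1 hEnd hpos)
    rwa [mul_one, sub_self, add_zero, Matrix.rank_one] at h4
  · rintro ⟨z, h1, h2, h3⟩
    refine ⟨fun x hx => ?_, z, h1, h2, fun e he => ?_⟩
    · obtain ⟨c, rfl⟩ := EC_scalar98 hEnd hx
      rw [mul_smul_comm, smul_mul_assoc, mul_one, one_mul]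
    · obtain rfl := blk_one14 hEnd he
      rw [mul_one, sub_self, add_zero, Matrix.rank_one]
      exact h3
  · obtain ⟨hsim, S', R, hR, hr⟩ := G
    refine ⟨hsim, ⟨_, le_refl _, ?_, fun g _ x hx => ?_⟩, fun σ => ⟨S', R, { hR with rank := fun e he p => ?_ }⟩⟩
    · rw [Subgroup.relIndex_self]
      exact one_ne_zero
    · obtain ⟨c, rfl⟩ := EC_scalar98 hEnd hx
      rw [mul_smul_comm, smul_mul_assoc, mul_one, one_mul]
    · obtain rfl := blk_one14 hEnd he
      have hPP : P p * P p = P p := by rw [H.mul, if_pos rfl]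
      rw [one_mul, one_mul, hr, rank_aut _ hPP]
  · rcases hAB with ⟨D, hD, hle⟩ | ⟨hg, hss, h11⟩
    · refine Or.inl ⟨D, ⟨hD.isom, hD.fixed, fun e he _ => ?_⟩, ?_⟩
      · obtain rfl := blk_one14 hEnd he
        obtain ⟨g, hgD, hinf⟩ := hD.inf
        refine ⟨g, hgD, fun N hN c hc => ?_⟩
        rw [mul_one] at hc
        -- `g ^ N` is a scalar isometry
        have h1 : ((g ^ N : GL n ℚ) : Matrix n n ℚ)ᵀ * Q * ((g ^ N : GL n ℚ) : Matrix n n ℚ) = Q :=
          hD.isom _ (D.pow_mem hgD N)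
        have h2 : toC ((g ^ N : GL n ℚ) : Matrix n n ℚ) = c • (1 : Matrix n n ℂ) := by
          rw [← hc, Units.val_pow_eq_pow_val]
        have h3 : (c * c) • toC Q = toC Q := by
          have h4 := congrArg toC h1
          have h5 : toC (((g ^ N : GL n ℚ) : Matrix n n ℚ)ᵀ * Q * ((g ^ N : GL n ℚ) : Matrix n n ℚ)) =
              (toC ((g ^ N : GL n ℚ) : Matrix n n ℚ))ᵀ * toC Q * toC ((g ^ N : GL n ℚ) : Matrix n n ℚ) := by
            simp only [toC, Matrix.map_mul, Matrix.transpose_map]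
          rw [h5, h2, Matrix.transpose_smul, Matrix.transpose_one, smul_mul_assoc, one_mul, mul_smul_comm, mul_one,
            smul_smul] at h4
          exact h4
        have h6 : c * c = 1 := by
          have h7 : (c * c - 1) • toC Q = 0 := by rw [sub_smul, h3, one_smul, sub_self]
          rcases smul_eq_zero.1 h7 with h8 | h8
          · exact sub_eq_zero.1 h8
          · exfalso
            have h10 := H.detQ
            rw [h8] at h10
            exact h10 Matrix.det_zero
        apply hinf (N + N) (by omega)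
        apply Units.ext
        have h7 : toC ((g ^ (N + N) : GL n ℚ) : Matrix n n ℚ) = toC (1 : Matrix n n ℚ) := by
          have h8 : ((g ^ (N + N) : GL n ℚ) : Matrix n n ℚ) =
              ((g ^ N : GL n ℚ) : Matrix n n ℚ) * ((g ^ N : GL n ℚ) : Matrix n n ℚ) := by
            rw [pow_add, Units.val_mul]
          have h9 : toC (((g ^ N : GL n ℚ) : Matrix n n ℚ) * ((g ^ N : GL n ℚ) : Matrix n n ℚ)) =
              toC ((g ^ N : GL n ℚ) : Matrix n n ℚ) * toC ((g ^ N : GL n ℚ) : Matrix n n ℚ) := by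
            simp only [toC, Matrix.map_mul]
          rw [h8, h9, h2, smul_mul_smul_comm, one_mul, h6, one_smul]
          simp [toC]
        ext i j
        have h8 := congrFun (congrFun h7 i) j
        simp only [toC, Matrix.map_apply] at h8
        exact_mod_cast (algebraMap ℚ ℂ).injective (by simpa using h8)
      · refine le_trans (le_of_eq ?_) (Subgroup.map_mono hle)
        rw [mapC, Subgroup.map_map]
        congr 1
        ext g i j
        simp [Matrix.GeneralLinearGroup.map_apply]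
    · refine Or.inr ⟨fun e he hr => ?_, hss, h11⟩
      obtain rfl := blk_one14 hEnd he
      refine ⟨RingEquiv.refl ℂ, ?_, ?_⟩
      · simp only [e1, one_mul]
        rw [Matrix.rank_one]
        exact exP_self.crW hn hI hA
      · simp only [e1, one_mul]
        exact hg

end RK

end MH
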